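import Pool.Agent.N496.QF.Main

/-!
# MP_fa0058_gt, Q1: `f(M)` is not a quasifibration for the half-plane with a reflector line

`M` is the quotient orbifold of the plane by complex conjugation, and `n ≥ 1` is the number of punctures of the fibre.
-/

set_option autoImplicit false

open Pool.Agent.N496.QF

theorem Pool.Agent.Results.MP_fa0058_gt.MirrorHalfPlane.result :
    ∀ n : ℕ, 1 ≤ n → ¬ IsQuasifibration (X := ℂ) (fun z => (starRingEnd ℂ) z) n := by
  intro n hn
  obtain ⟨m, rfl⟩ : ∃ m, n = m + 1 := ⟨n - 1, by omega⟩
  exact not_quasifibration m
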